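import Pool.Agent.Helper11.LV.Defs

/-!
# Project LV (MP_a499ba_nt), block D4: the sum over the pairs with a square product
-/

set_option autoImplicit false

namespace Pool.Agent.Helper28.LV

open Finset

lemma step {d x : ℝ} (hd : 0 < d) (hd1 : d ≤ 1) (hx : 1 ≤ x) :
    d * (x + 1) ^ (-(1 + d)) ≤ x ^ (-d) - (x + 1) ^ (-d) := by
  have hx0 : 0 < x := by linarith
  have hy : 0 < x + 1 := by linarith
  have h1 : (x / (x + 1)) ^ d ≤ 1 + d * (-(1 / (x + 1))) := by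
    have h := rpow_one_add_le_one_add_mul_self (s := -(1 / (x + 1))) (by
      rw [neg_le_neg_iff, div_le_one hy]; linarith) hd.le hd1
    rwa [show 1 + -(1 / (x + 1)) = x / (x + 1) by field_simp; ring] at h
  rw [Real.div_rpow hx0.le hy.le] at h1
  have hyd : 0 < (x + 1) ^ d := Real.rpow_pos_of_pos hy _
  have hxd : 0 < x ^ d := Real.rpow_pos_of_pos hx0 _
  rw [div_le_iff₀ hyd] at h1
  have e1 : (x + 1) ^ (-(1 + d)) = ((x + 1) ^ d)⁻¹ * (1 / (x + 1)) := by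
    rw [show -(1 + d) = -d + -1 by ring, Real.rpow_add hy, Real.rpow_neg hy.le, Real.rpow_neg_one, one_div]
  rw [e1, Real.rpow_neg hx0.le, Real.rpow_neg hy.le]
  set Y := (x + 1) ^ d with hY
  set X := x ^ d with hX
  set u := 1 / (x + 1) with hu
  have hu0 : 0 < u := by positivity
  have h2 : (1 + d * u) * X ≤ Y := by
    calc (1 + d * u) * X ≤ (1 + d * u) * ((1 + d * -u) * Y) := mul_le_mul_of_nonneg_left h1 (by positivity)
      _ = Y - d ^ 2 * u ^ 2 * Y := by ring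
      _ ≤ Y := by
        have : 0 ≤ d ^ 2 * u ^ 2 * Y := by positivity
        linarith
  have h3 : Y⁻¹ * (1 + d * u) ≤ X⁻¹ := by
    rw [← one_div X, le_div_iff₀ hxd, mul_assoc, ← div_eq_inv_mul, div_le_one hyd]
    exact h2
  nlinarith

/-- `∑ n ^ (-(1 + d)) ≤ 1 + 1 / d` -/
lemma zeta_le {d : ℝ} (hd : 0 < d) (hd1 : d ≤ 1) (M : ℕ) : ∑ n ∈ Icc 1 M, (n : ℝ) ^ (-(1 + d)) ≤ 1 + 1 / d := by
  rcases Nat.eq_zero_or_pos M with rfl | hM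
  · simp; positivity
  have h : ∀ M : ℕ, 1 ≤ M → ∑ n ∈ Icc 1 M, (n : ℝ) ^ (-(1 + d)) ≤ 1 + 1 / d * (1 - (M : ℝ) ^ (-d)) := by
    intro M hM
    induction M, hM using Nat.le_induction with
    | base => simp
    | succ M hM ih =>
      rw [Finset.sum_Icc_succ_top (by omega)]
      have h1 : (1 : ℝ) ≤ M := by exact_mod_cast hM
      have h2 := step hd hd1 h1
      have h3 : ((M : ℝ) + 1) ^ (-(1 + d)) ≤ 1 / d * ((M : ℝ) ^ (-d) - ((M : ℝ) + 1) ^ (-d)) := by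
        rw [one_div, ← div_eq_inv_mul, le_div_iff₀ hd]
        linarith
      push_cast
      linarith
  refine (h M hM).trans ?_
  have h4 : 0 ≤ (M : ℝ) ^ (-d) := Real.rpow_nonneg (by positivity) _
  have h5 : 1 / d * (1 - (M : ℝ) ^ (-d)) ≤ 1 / d * 1 := mul_le_mul_of_nonneg_left (by linarith) (by positivity)
  linarith

/-- two numbers with a square product -/
lemma dec_pair {m n : ℕ} (hm : 1 ≤ m) (hn : 1 ≤ n) (h : IsSquare (m * n)) :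
    ∃ b c : ℕ, m = m.gcd n * b ^ 2 ∧ n = m.gcd n * c ^ 2 := by
  have hg : 0 < m.gcd n := Nat.gcd_pos_of_pos_left _ hm
  obtain ⟨u, hu⟩ := Nat.gcd_dvd_left m n
  obtain ⟨v, hv⟩ := Nat.gcd_dvd_right m n
  have hcop : Nat.Coprime u v := by
    have h1 := Nat.coprime_div_gcd_div_gcd hg
    rwa [Nat.div_eq_of_eq_mul_right hg hu, Nat.div_eq_of_eq_mul_right hg hv] at h1
  obtain ⟨r, hr⟩ := h
  obtain ⟨g, hgdef⟩ : ∃ g : ℕ, g = m.gcd n := ⟨_, rfl⟩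
  rw [← hgdef] at hg hu hv
  have h2 : r ^ 2 = g ^ 2 * (u * v) := by
    calc r ^ 2 = r * r := sq r
      _ = m * n := hr.symm
      _ = (g * u) * (g * v) := by rw [← hu, ← hv]
      _ = _ := by ring
  have h3 : g ∣ r := by
    rw [← Nat.pow_dvd_pow_iff (two_ne_zero)]
    exact ⟨_, h2⟩
  obtain ⟨w, hw⟩ := h3
  have h4 : u * v = w ^ 2 := by
    have h5 : g ^ 2 * (u * v) = g ^ 2 * w ^ 2 := by rw [← h2, hw]; ring
    exact Nat.eq_of_mul_eq_mul_left (by positivity) h5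
  obtain ⟨b, hb⟩ := exists_eq_pow_of_mul_eq_pow (a := u) (b := v) (c := w) (k := 2) (by
    rw [Nat.isUnit_iff]; exact hcop) h4
  obtain ⟨c, hc⟩ := exists_eq_pow_of_mul_eq_pow (a := v) (b := u) (c := w) (k := 2) (by
    rw [Nat.isUnit_iff]; exact hcop.symm) (by rw [mul_comm]; exact h4)
  rw [← hgdef]
  exact ⟨b, c, by rw [← hb]; exact hu, by rw [← hc]; exact hv⟩

open Classical in
/-- D4 -/
theorem pair_sum {d : ℝ} (hd : 0 < d) (hd1 : d ≤ 1) {A : ℕ} (hA : 1 ≤ A) (T : Finset ℕ) (hT : ∀ m ∈ T, A ≤ m) :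
    ∑ m ∈ T, ∑ n ∈ T, (if IsSquare (m * n) then (m : ℝ) ^ (-(1 / 2 + d)) * (n : ℝ) ^ (-(1 / 2 + d)) else 0) ≤
      (A : ℝ) ^ (-d) * (1 + 1 / d) ^ 3 := by
  have hA0 : (0 : ℝ) < A := by exact_mod_cast hA
  -- the decomposition as functions
  have hch : ∀ x : ℕ × ℕ, ∃ y : ℕ × ℕ × ℕ, (1 ≤ x.1 ∧ 1 ≤ x.2 ∧ IsSquare (x.1 * x.2)) → x.1 = y.1 * y.2.1 ^ 2 ∧ x.2 = y.1 * y.2.2 ^ 2 := by
    intro x
    by_cases h : 1 ≤ x.1 ∧ 1 ≤ x.2 ∧ IsSquare (x.1 * x.2)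
    · obtain ⟨b, c, h1, h2⟩ := dec_pair h.1 h.2.1 h.2.2
      exact ⟨(x.1.gcd x.2, b, c), fun _ => ⟨h1, h2⟩⟩
    · exact ⟨(0, 0, 0), fun h' => absurd h' h⟩
  choose φ hφ using hch
  set M : ℕ := T.sup id with hM
  have hTM : ∀ m ∈ T, m ≤ M := fun m hm => Finset.le_sup (f := id) hm
  set S : Finset (ℕ × ℕ) := (T ×ˢ T).filter fun x => IsSquare (x.1 * x.2) with hS
  have hS1 : ∀ x ∈ S, x.1 ∈ T ∧ x.2 ∈ T ∧ (1 ≤ x.1 ∧ 1 ≤ x.2 ∧ IsSquare (x.1 * x.2)) := by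
    intro x hx
    rw [hS, Finset.mem_filter, Finset.mem_product] at hx
    exact ⟨hx.1.1, hx.1.2, hA.trans (hT _ hx.1.1), hA.trans (hT _ hx.1.2), hx.2⟩
  set F : ℕ × ℕ × ℕ → ℝ := fun y => (y.1 : ℝ) ^ (-(1 + d)) * ((y.2.1 : ℝ) ^ (-(1 + d)) * (y.2.2 : ℝ) ^ (-(1 + d))) with hF
  have hF0 : ∀ y, 0 ≤ F y := fun y => by rw [hF]; positivity
  have hterm : ∀ x ∈ S, (x.1 : ℝ) ^ (-(1 / 2 + d)) * (x.2 : ℝ) ^ (-(1 / 2 + d)) ≤ (A : ℝ) ^ (-d) * F (φ x) := by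
    intro x hx
    obtain ⟨h1, h2, h3⟩ := hS1 x hx
    obtain ⟨h4, h5⟩ := hφ x h3
    have hm : (0 : ℝ) < x.1 := by exact_mod_cast h3.1
    have hn : (0 : ℝ) < x.2 := by exact_mod_cast h3.2.1
    have hmA : (A : ℝ) ≤ x.1 := by exact_mod_cast hT _ h1
    have hnA : (A : ℝ) ≤ x.2 := by exact_mod_cast hT _ h2
    have e1 : ∀ z : ℝ, 0 < z → z ^ (-(1 / 2 + d)) = z ^ (-(d / 2)) * z ^ (-((1 + d) / 2)) := by
      intro z hz
      rw [← Real.rpow_add hz]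
      congr 1
      ring
    rw [e1 _ hm, e1 _ hn]
    have b1 : (x.1 : ℝ) ^ (-(d / 2)) ≤ (A : ℝ) ^ (-(d / 2)) := Real.rpow_le_rpow_of_nonpos hA0 hmA (by linarith)
    have b2 : (x.2 : ℝ) ^ (-(d / 2)) ≤ (A : ℝ) ^ (-(d / 2)) := Real.rpow_le_rpow_of_nonpos hA0 hnA (by linarith)
    have e2 : (A : ℝ) ^ (-(d / 2)) * (A : ℝ) ^ (-(d / 2)) = (A : ℝ) ^ (-d) := by
      rw [← Real.rpow_add hA0]
      congr 1
      ring
    have e3 : (x.1 : ℝ) ^ (-((1 + d) / 2)) * (x.2 : ℝ) ^ (-((1 + d) / 2)) = F (φ x) := by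
      have h6 : (x.1 : ℝ) = ((φ x).1 : ℝ) * ((φ x).2.1 : ℝ) ^ 2 := by exact_mod_cast h4
      have h7 : (x.2 : ℝ) = ((φ x).1 : ℝ) * ((φ x).2.2 : ℝ) ^ 2 := by exact_mod_cast h5
      have g1 : (0 : ℝ) ≤ (φ x).1 := by positivity
      have g2 : (0 : ℝ) ≤ (φ x).2.1 := by positivity
      have g3 : (0 : ℝ) ≤ (φ x).2.2 := by positivity
      have g0 : (0 : ℝ) < (φ x).1 := by
        rcases g1.lt_or_eq with h | h
        · exact h
        · rw [← h, zero_mul] at h6; linarith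
      have e4 : ∀ z : ℝ, 0 ≤ z → (z ^ 2) ^ (-((1 + d) / 2)) = z ^ (-(1 + d)) := by
        intro z hz
        rw [← Real.rpow_natCast, ← Real.rpow_mul hz]
        congr 1
        push_cast
        ring
      rw [h6, h7, Real.mul_rpow g1 (by positivity), Real.mul_rpow g1 (by positivity), e4 _ g2, e4 _ g3, hF]
      have e5 : ((φ x).1 : ℝ) ^ (-((1 + d) / 2)) * ((φ x).1 : ℝ) ^ (-((1 + d) / 2)) = ((φ x).1 : ℝ) ^ (-(1 + d)) := by
        rw [← Real.rpow_add g0]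
        congr 1
        ring
      calc _ = (((φ x).1 : ℝ) ^ (-((1 + d) / 2)) * ((φ x).1 : ℝ) ^ (-((1 + d) / 2))) *
            (((φ x).2.1 : ℝ) ^ (-(1 + d)) * ((φ x).2.2 : ℝ) ^ (-(1 + d))) := by ring
        _ = _ := by rw [e5]
    calc (x.1 : ℝ) ^ (-(d / 2)) * (x.1 : ℝ) ^ (-((1 + d) / 2)) * ((x.2 : ℝ) ^ (-(d / 2)) * (x.2 : ℝ) ^ (-((1 + d) / 2)))
        = ((x.1 : ℝ) ^ (-(d / 2)) * (x.2 : ℝ) ^ (-(d / 2))) * F (φ x) := by rw [← e3]; ring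
      _ ≤ ((A : ℝ) ^ (-(d / 2)) * (A : ℝ) ^ (-(d / 2))) * F (φ x) := by
        refine mul_le_mul_of_nonneg_right ?_ (hF0 _)
        exact mul_le_mul b1 b2 (by positivity) (by positivity)
      _ = _ := by rw [e2]
  have hinj : Set.InjOn φ (S : Set (ℕ × ℕ)) := by
    intro x hx y hy hxy
    obtain ⟨-, -, h3⟩ := hS1 x hx
    obtain ⟨-, -, h3'⟩ := hS1 y hy
    obtain ⟨h4, h5⟩ := hφ x h3
    obtain ⟨h6, h7⟩ := hφ y h3'
    rw [hxy] at h4 h5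
    exact Prod.ext (h4.trans h6.symm) (h5.trans h7.symm)
  have himg : S.image φ ⊆ Icc 1 M ×ˢ (Icc 1 M ×ˢ Icc 1 M) := by
    intro y hy
    rw [Finset.mem_image] at hy
    obtain ⟨x, hx, rfl⟩ := hy
    obtain ⟨h1, h2, h3⟩ := hS1 x hx
    obtain ⟨h4, h5⟩ := hφ x h3
    have h8 := hTM _ h1
    have h9 := hTM _ h2
    have p1 : 0 < (φ x).1 := by
      rcases Nat.eq_zero_or_pos (φ x).1 with h | h
      · rw [h, zero_mul] at h4; omega
      · exact h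
    have p2 : 0 < (φ x).2.1 := by
      rcases Nat.eq_zero_or_pos (φ x).2.1 with h | h
      · rw [h] at h4; simp at h4; omega
      · exact h
    have p3 : 0 < (φ x).2.2 := by
      rcases Nat.eq_zero_or_pos (φ x).2.2 with h | h
      · rw [h] at h5; simp at h5; omega
      · exact h
    rw [Finset.mem_product, Finset.mem_product, Finset.mem_Icc, Finset.mem_Icc, Finset.mem_Icc]
    refine ⟨⟨p1, ?_⟩, ⟨p2, ?_⟩, p3, ?_⟩
    · calc (φ x).1 ≤ (φ x).1 * (φ x).2.1 ^ 2 := Nat.le_mul_of_pos_right _ (by positivity)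
        _ = x.1 := h4.symm
        _ ≤ M := h8
    · calc (φ x).2.1 ≤ (φ x).2.1 ^ 2 := Nat.le_self_pow two_ne_zero _
        _ ≤ (φ x).1 * (φ x).2.1 ^ 2 := Nat.le_mul_of_pos_left _ p1
        _ = x.1 := h4.symm
        _ ≤ M := h8
    · calc (φ x).2.2 ≤ (φ x).2.2 ^ 2 := Nat.le_self_pow two_ne_zero _
        _ ≤ (φ x).1 * (φ x).2.2 ^ 2 := Nat.le_mul_of_pos_left _ p1
        _ = x.2 := h5.symm
        _ ≤ M := h9
  have hz := zeta_le hd hd1 M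
  have hz0 : 0 ≤ ∑ n ∈ Icc 1 M, (n : ℝ) ^ (-(1 + d)) := Finset.sum_nonneg fun n _ => by positivity
  calc ∑ m ∈ T, ∑ n ∈ T, (if IsSquare (m * n) then (m : ℝ) ^ (-(1 / 2 + d)) * (n : ℝ) ^ (-(1 / 2 + d)) else 0)
      = ∑ x ∈ S, (x.1 : ℝ) ^ (-(1 / 2 + d)) * (x.2 : ℝ) ^ (-(1 / 2 + d)) := by
        rw [hS, Finset.sum_filter, Finset.sum_product]
    _ ≤ ∑ x ∈ S, (A : ℝ) ^ (-d) * F (φ x) := Finset.sum_le_sum hterm
    _ = (A : ℝ) ^ (-d) * ∑ y ∈ S.image φ, F y := by rw [← Finset.mul_sum, Finset.sum_image hinj]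
    _ ≤ (A : ℝ) ^ (-d) * ∑ y ∈ Icc 1 M ×ˢ (Icc 1 M ×ˢ Icc 1 M), F y := by
        refine mul_le_mul_of_nonneg_left ?_ (by positivity)
        exact Finset.sum_le_sum_of_subset_of_nonneg himg fun y _ _ => hF0 y
    _ = (A : ℝ) ^ (-d) * (∑ n ∈ Icc 1 M, (n : ℝ) ^ (-(1 + d))) ^ 3 := by
        congr 1
        have e6 : ∑ y ∈ Icc 1 M ×ˢ (Icc 1 M ×ˢ Icc 1 M), F y = ∑ a ∈ Icc 1 M, ∑ b ∈ Icc 1 M, ∑ c ∈ Icc 1 M,
            (a : ℝ) ^ (-(1 + d)) * ((b : ℝ) ^ (-(1 + d)) * (c : ℝ) ^ (-(1 + d))) := by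
          rw [Finset.sum_product]
          refine Finset.sum_congr rfl fun a _ => ?_
          rw [Finset.sum_product]
        rw [e6]
        simp only [← Finset.mul_sum, ← Finset.sum_mul]
        ring
    _ ≤ (A : ℝ) ^ (-d) * (1 + 1 / d) ^ 3 := by
        refine mul_le_mul_of_nonneg_left ?_ (by positivity)
        exact pow_le_pow_left₀ hz0 hz 3

end Pool.Agent.Helper28.LV
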