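import Pool.Agent.Helper28.LV.D3
import Pool.Agent.Helper80.LV.D2

/-!
# Project LV (MP_a499ba_nt), block D3, without hypotheses
-/

set_option autoImplicit false

namespace Pool.Agent.Helper28.LV

open Finset Pool.Agent.Helper11.LV

open Classical in
/-- D3: the second moment -/
theorem sub_sq : ∃ C : ℝ, 0 < C ∧ ∀ (Q y N : ℕ) (T : Finset ℕ) (c : ℕ → ℂ), (∀ m ∈ T, 1 ≤ m ∧ m ≤ N ∧ Rou y m) →
    ∑ q ∈ Sub Q y, ‖∑ m ∈ T, c m * ja q m‖ ^ 2 ≤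
      (Sub Q y).card * ∑ m ∈ T, ∑ n ∈ T, (if IsSquare (m * n) then ‖c m‖ * ‖c n‖ else 0) +
      C * 32 ^ y * (N : ℝ) ^ 4 * Real.sqrt Q * (∑ m ∈ T, ‖c m‖) ^ 2 :=
  sub_sq_of Pool.Agent.Helper80.LV.sub_corr

end Pool.Agent.Helper28.LV
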