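import Pool.Agent.Helper11.LV.QDefs

/-!
# Project LV (MP_a499ba_nt), block D3: the second moment over the family, from the correlations
-/

set_option autoImplicit false

namespace Pool.Agent.Helper28.LV

open Finset Pool.Agent.Helper11.LV

/-- The statement of block D2. -/
def StSubCorr : Prop := ∃ C : ℝ, 0 < C ∧ ∀ Q y m : ℕ, 1 ≤ m → Rou y m → ¬ IsSquare m →
    ‖∑ q ∈ Sub Q y, ja q m‖ ≤ C * 32 ^ y * (m : ℝ) ^ 2 * Real.sqrt Q

lemma ja_mul (q m n : ℕ) : ja q (m * n) = ja q m * ja q n := by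
  unfold ja
  rw [← Int.cast_mul, Nat.cast_mul, jacobiSym.mul_left]

lemma ja_conj (q n : ℕ) : (starRingEnd ℂ) (ja q n) = ja q n := by
  unfold ja
  rw [← Complex.ofReal_intCast, Complex.conj_ofReal]

lemma ja_le (q n : ℕ) : ‖ja q n‖ ≤ 1 := by
  unfold ja
  rcases jacobiSym.trichotomy (n : ℤ) q with h | h | h <;> rw [h] <;> simp

lemma rou_mul {y m n : ℕ} (hm : Rou y m) (hn : Rou y n) : Rou y (m * n) := by
  intro p hp hd
  rcases (Nat.Prime.dvd_mul hp).1 hd with h | h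
  · exact hm p hp h
  · exact hn p hp h

open Classical in
/-- D3 over D2 -/
theorem sub_sq_of (h : StSubCorr) : ∃ C : ℝ, 0 < C ∧ ∀ (Q y N : ℕ) (T : Finset ℕ) (c : ℕ → ℂ), (∀ m ∈ T, 1 ≤ m ∧ m ≤ N ∧ Rou y m) →
    ∑ q ∈ Sub Q y, ‖∑ m ∈ T, c m * ja q m‖ ^ 2 ≤
      (Sub Q y).card * ∑ m ∈ T, ∑ n ∈ T, (if IsSquare (m * n) then ‖c m‖ * ‖c n‖ else 0) +
      C * 32 ^ y * (N : ℝ) ^ 4 * Real.sqrt Q * (∑ m ∈ T, ‖c m‖) ^ 2 := by
  obtain ⟨C, hC, H⟩ := h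
  refine ⟨C, hC, fun Q y N T c hT => ?_⟩
  have e1 : ∀ q : ℕ, ((‖∑ m ∈ T, c m * ja q m‖ ^ 2 : ℝ) : ℂ) =
      ∑ m ∈ T, ∑ n ∈ T, c m * (starRingEnd ℂ) (c n) * ja q (m * n) := by
    intro q
    rw [Complex.ofReal_pow, ← Complex.mul_conj', map_sum, Finset.sum_mul_sum]
    refine Finset.sum_congr rfl fun m _ => Finset.sum_congr rfl fun n _ => ?_
    rw [map_mul, ja_conj, ja_mul]
    ring
  have e2 : ((∑ q ∈ Sub Q y, ‖∑ m ∈ T, c m * ja q m‖ ^ 2 : ℝ) : ℂ) =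
      ∑ m ∈ T, ∑ n ∈ T, c m * (starRingEnd ℂ) (c n) * ∑ q ∈ Sub Q y, ja q (m * n) := by
    rw [Complex.ofReal_sum]
    simp only [e1]
    rw [Finset.sum_comm]
    refine Finset.sum_congr rfl fun m _ => ?_
    rw [Finset.sum_comm]
    refine Finset.sum_congr rfl fun n _ => ?_
    rw [Finset.mul_sum]
  have hpos : 0 ≤ ∑ q ∈ Sub Q y, ‖∑ m ∈ T, c m * ja q m‖ ^ 2 := Finset.sum_nonneg fun q _ => by positivity
  have e3 : ∑ q ∈ Sub Q y, ‖∑ m ∈ T, c m * ja q m‖ ^ 2 =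
      ‖∑ m ∈ T, ∑ n ∈ T, c m * (starRingEnd ℂ) (c n) * ∑ q ∈ Sub Q y, ja q (m * n)‖ := by
    rw [← e2, Complex.norm_real, Real.norm_of_nonneg hpos]
  have hterm : ∀ m ∈ T, ∀ n ∈ T, ‖c m * (starRingEnd ℂ) (c n) * ∑ q ∈ Sub Q y, ja q (m * n)‖ ≤
      (Sub Q y).card * (if IsSquare (m * n) then ‖c m‖ * ‖c n‖ else 0) +
      C * 32 ^ y * (N : ℝ) ^ 4 * Real.sqrt Q * (‖c m‖ * ‖c n‖) := by
    intro m hm n hn
    obtain ⟨m1, m2, m3⟩ := hT m hm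
    obtain ⟨n1, n2, n3⟩ := hT n hn
    rw [norm_mul, norm_mul, RCLike.norm_conj]
    split_ifs with hs
    · have h1 : ‖∑ q ∈ Sub Q y, ja q (m * n)‖ ≤ (Sub Q y).card := by
        refine (norm_sum_le _ _).trans ?_
        refine (Finset.sum_le_sum fun q _ => ja_le q (m * n)).trans ?_
        simp
      have h2 : 0 ≤ C * 32 ^ y * (N : ℝ) ^ 4 * Real.sqrt Q * (‖c m‖ * ‖c n‖) := by positivity
      have h3 : ‖c m‖ * ‖c n‖ * ‖∑ q ∈ Sub Q y, ja q (m * n)‖ ≤ ‖c m‖ * ‖c n‖ * (Sub Q y).card :=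
        mul_le_mul_of_nonneg_left h1 (by positivity)
      linarith
    · have h1 := H Q y (m * n) (Nat.mul_pos m1 n1) (rou_mul m3 n3) hs
      have h2 : ((m * n : ℕ) : ℝ) ^ 2 ≤ (N : ℝ) ^ 4 := by
        have h3 : ((m * n : ℕ) : ℝ) ≤ (N : ℝ) ^ 2 := by
          push_cast
          have a1 : (m : ℝ) ≤ N := by exact_mod_cast m2
          have a2 : (n : ℝ) ≤ N := by exact_mod_cast n2
          rw [pow_two]
          exact mul_le_mul a1 a2 (by positivity) (by positivity)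
        calc ((m * n : ℕ) : ℝ) ^ 2 ≤ ((N : ℝ) ^ 2) ^ 2 := pow_le_pow_left₀ (by positivity) h3 2
          _ = (N : ℝ) ^ 4 := by ring
      have h4 : C * 32 ^ y * ((m * n : ℕ) : ℝ) ^ 2 * Real.sqrt Q ≤ C * 32 ^ y * (N : ℝ) ^ 4 * Real.sqrt Q := by
        refine mul_le_mul_of_nonneg_right ?_ (Real.sqrt_nonneg _)
        exact mul_le_mul_of_nonneg_left h2 (by positivity)
      have h5 : ‖c m‖ * ‖c n‖ * ‖∑ q ∈ Sub Q y, ja q (m * n)‖ ≤ ‖c m‖ * ‖c n‖ * (C * 32 ^ y * (N : ℝ) ^ 4 * Real.sqrt Q) :=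
        mul_le_mul_of_nonneg_left (h1.trans h4) (by positivity)
      linarith
  rw [e3]
  calc ‖∑ m ∈ T, ∑ n ∈ T, c m * (starRingEnd ℂ) (c n) * ∑ q ∈ Sub Q y, ja q (m * n)‖
      ≤ ∑ m ∈ T, ∑ n ∈ T, ‖c m * (starRingEnd ℂ) (c n) * ∑ q ∈ Sub Q y, ja q (m * n)‖ :=
        (norm_sum_le _ _).trans (Finset.sum_le_sum fun m _ => norm_sum_le _ _)
    _ ≤ ∑ m ∈ T, ∑ n ∈ T, ((Sub Q y).card * (if IsSquare (m * n) then ‖c m‖ * ‖c n‖ else 0) +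
          C * 32 ^ y * (N : ℝ) ^ 4 * Real.sqrt Q * (‖c m‖ * ‖c n‖)) :=
        Finset.sum_le_sum fun m hm => Finset.sum_le_sum fun n hn => hterm m hm n hn
    _ = _ := by
        simp only [Finset.sum_add_distrib, ← Finset.mul_sum]
        rw [sq, Finset.sum_mul_sum]
        simp only [← Finset.mul_sum]

end Pool.Agent.Helper28.LV
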